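import Pool.Agent.H608.Ge.Flip
import Pool.Agent.H608.Ge.Primes
import Pool.Agent.H608.Ge.Jn
import Mathlib

/-!
# The quotients `ζ(2n) / ζ(n)²` with changed signs at very few primes

For a set `E` of primes let `f_E` be the completely multiplicative function with `f_E(p) = -1` for `p ∈ E` and
`f_E(p) = 1` for the other primes, `F_E(s) = ∑ f_E(k) / k ^ s` and `t_E(n) = ζ(2n) / F_E(n)²`, so that `F_E = ζ` for
`E = ∅`. There are sets `E` with at most `C log log log K` elements up to `K` such that the numbers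
`t_E(2), t_E(3), t_E(4), …` are algebraically independent over any given countable ring of real numbers, and all
values of nonconstant polynomials in them, and of given entire functions of the logarithms of the numbers `F_E(n)`,
are normal in every integer base, even jointly.
-/

set_option autoImplicit false

namespace Pool.Agent.Results.MP_f1a024_nt.FewChangedPrimes

open Finset Filter Topology Metric
open Pool.Agent.H608.Sp Pool.Agent.H608.Ge

/-- the digit of `x` in base `b` at position `i` after the point -/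
noncomputable def digit (b : ℕ) (x : ℝ) (i : ℕ) : ℤ := ⌊x * (b : ℝ) ^ i⌋ % (b : ℤ)

open Classical in
/-- the tuple `x` is jointly normal in base `b`: every digit matrix with `n` rows and `m` columns
occurs along the positions with limiting frequency `b ^ (-(m * n))` -/
def JointlyNormal (b : ℕ) {n : ℕ} (x : Fin n → ℝ) : Prop :=
  ∀ m : ℕ, 1 ≤ m → ∀ D : Fin n → Fin m → Fin b,
    Tendsto (fun N : ℕ => (((Icc 1 N).filter fun i : ℕ =>
      ∀ (j : Fin n) (t : Fin m), digit b (x j) (i + (t : ℕ)) = ((D j t : ℕ) : ℤ)).card : ℝ) / (N : ℝ))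
      atTop (𝓝 (1 / (b : ℝ) ^ (m * n)))

/-- `A` has at least `H exp (- (log H) ^ (2 / 5))` elements in `[H, 2 H)`, for all large `H` -/
def NotTooSparse (A : Set ℕ) : Prop :=
  ∀ᶠ H : ℕ in atTop, H * Real.exp (-(Real.log H) ^ (2 / 5 : ℝ)) ≤
    (({k : ℕ | k ∈ A ∧ H ≤ k ∧ k < 2 * H}.ncard : ℕ) : ℝ)

open Classical in
/-- the completely multiplicative function with the value `-1` at the primes of `E`, `1` at the other primes -/
noncomputable def f (E : Set ℕ) (n : ℕ) : ℝ := (n.primeFactorsList.map fun p => if p ∈ E then (-1 : ℝ) else 1).prod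

/-- its Dirichlet series -/
noncomputable def F (E : Set ℕ) (s : ℕ) : ℝ := ∑' n : ℕ, f E n / (n : ℝ) ^ s

/-- the quotient `ζ(2n) / F(n)²` -/
noncomputable def t (E : Set ℕ) (n : ℕ) : ℝ := (riemannZeta (2 * n)).re / F E n ^ 2

lemma jn_of_nt (b : ℕ) {n : ℕ} (x : Fin n → ℝ) (h : Pool.Agent.W206.ND.NT b x) :
    JointlyNormal b x := by
  intro m hm D
  have h1 := h m hm D
  refine h1.congr fun N => ?_
  congr 2

lemma F_empty {s : ℕ} (hs : 2 ≤ s) : ((F ∅ s : ℝ) : ℂ) = riemannZeta s := by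
  rw [zeta_nat_eq_tsum_of_gt_one (by omega)]
  unfold F
  rw [Complex.ofReal_tsum]
  apply tsum_congr
  intro n
  have h1 : f ∅ n = 1 := by
    unfold f
    simp
  rw [h1]
  push_cast
  rfl

lemma zeta_pos {n : ℕ} (hn : 2 ≤ n) : 0 < (riemannZeta (2 * n)).re := by
  have h1 := F_empty (s := 2 * n) (by omega)
  push_cast at h1
  rw [← h1, Complex.ofReal_re]
  have h2 : F ∅ (2 * n) = Real.exp (∑' k : ℕ, ts ∅ (2 * n) k) := flip_exp ∅ (by omega)
  rw [h2]
  exact Real.exp_pos _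

/-- polynomials in the numbers `a_i exp (- 2 w_i)` -/
noncomputable def G (R : Subring ℝ) {m : ℕ} (a : Fin m → ℝ) (P : MvPolynomial (Fin m) R) (w : Fin m → ℂ) : ℂ :=
  polN R P fun i => (a i : ℂ) * Complex.exp (-2 * w i)

lemma G_analytic (R : Subring ℝ) {m : ℕ} (a : Fin m → ℝ) (P : MvPolynomial (Fin m) R) :
    AnalyticOnNhd ℂ (G R a P) Set.univ := by
  refine (polN_analytic R P Set.univ).comp ?_ fun _ _ => Set.mem_univ _
  apply AnalyticOnNhd.pi
  intro i
  exact analyticOnNhd_const.mul (analyticOnNhd_const.mul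
    ((ContinuousLinearMap.proj (R := ℂ) (φ := fun _ : Fin m => ℂ) i).analyticOnNhd _)).cexp

lemma G_real (R : Subring ℝ) {m : ℕ} (a : Fin m → ℝ) (P : MvPolynomial (Fin m) R) (y : Fin m → ℝ) :
    G R a P (rp y) = ((MvPolynomial.aeval (fun i => a i * Real.exp (-2 * y i)) P : ℝ) : ℂ) := by
  unfold G
  rw [← polN_real]
  congr 1
  funext i
  unfold rp
  push_cast
  rfl

lemma G_const (R : Subring ℝ) {m : ℕ} {a : Fin m → ℝ} (ha : ∀ i, a i ≠ 0) (P : MvPolynomial (Fin m) R)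
    (h : ∃ c, ∀ w, G R a P w = c) : ∃ c, P = MvPolynomial.C c := by
  obtain ⟨c, hc⟩ := h
  apply polN_const R P (x := fun _ => 2) one_pos
  refine ⟨c, fun w hw => ?_⟩
  rw [mem_ball_n one_pos] at hw
  have h0 : ∀ i, w i ≠ 0 := by
    intro i h
    have h1 := hw i
    rw [h, mem_ball_iff_norm] at h1
    have h2 : ‖(0 : ℂ) - rp (fun _ => 2) i‖ = 2 := by
      show ‖(0 : ℂ) - ((2 : ℝ) : ℂ)‖ = 2
      rw [zero_sub, norm_neg, Complex.norm_real]
      norm_num
    rw [h2] at h1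
    norm_num at h1
  have h1 := hc fun i => -Complex.log (w i / a i) / 2
  unfold G at h1
  rw [← h1]
  congr 1
  funext i
  have hai : (a i : ℂ) ≠ 0 := by exact_mod_cast ha i
  rw [show -2 * (-Complex.log (w i / a i) / 2) = Complex.log (w i / a i) by ring,
    Complex.exp_log (div_ne_zero (h0 i) hai), mul_div_cancel₀ _ hai]

open Classical in
theorem result :
    -- without changes the function is `ζ`
    (∀ s : ℕ, 2 ≤ s → ((F ∅ s : ℝ) : ℂ) = riemannZeta s) ∧
    (∀ n : ℕ, 2 ≤ n → ((t ∅ n : ℝ) : ℂ) = riemannZeta (2 * n) / riemannZeta n ^ 2) ∧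
    -- Euler product
    (∀ (E : Set ℕ) (s : ℕ), 2 ≤ s → HasProd (fun p : Nat.Primes =>
      (1 - (if (p : ℕ) ∈ E then (-1 : ℝ) else 1) / ((p : ℕ) : ℝ) ^ s)⁻¹) (F E s)) ∧
    -- the set of all primes is an admissible set `A`
    NotTooSparse {p : ℕ | p.Prime} ∧
    ∃ C : ℝ, 0 < C ∧ ∀ A : Set ℕ, (∀ p ∈ A, p.Prime) → NotTooSparse A →
      ∀ (M : ℕ) (R : Subring ℝ), Countable R →
      ∀ 𝓕 : ∀ m : ℕ, Set ((Fin m → ℂ) → ℂ), (∀ m, (𝓕 m).Countable) →
      (∀ m, ∀ g ∈ 𝓕 m, AnalyticOnNhd ℂ g Set.univ ∧ ∀ a : Fin m → ℝ, (g fun i => (a i : ℂ)).im = 0) →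
      ∃ E : Set ℕ, E ⊆ A ∧ (∀ p ∈ E, M ≤ p) ∧
        (∀ K : ℕ, 16 ≤ K → (({p : ℕ | p ∈ E ∧ p ≤ K}.ncard : ℕ) : ℝ) ≤
          C * Real.log (Real.log (Real.log K))) ∧
        AlgebraicIndependent R (fun j : ℕ => t E (j + 2)) ∧
        -- polynomials in the quotients
        (∀ (n : ℕ) (P : Fin n → MvPolynomial ℕ R),
          (∀ v : Fin n → ℤ, v ≠ 0 → ∀ c, ∑ j, v j • P j ≠ MvPolynomial.C c) →
          ∀ b : ℕ, 2 ≤ b → JointlyNormal b fun j => MvPolynomial.aeval (fun j : ℕ => t E (j + 2)) (P j)) ∧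
        -- entire functions of the logarithms
        ∀ (m n : ℕ) (g : Fin n → (Fin m → ℂ) → ℂ), (∀ j, g j ∈ 𝓕 m) →
          (∀ v : Fin n → ℤ, v ≠ 0 → ¬ ∃ c : ℂ, ∀ w, ∑ j, (v j : ℂ) * g j w = c) →
          ∀ b : ℕ, 2 ≤ b →
            JointlyNormal b fun j => (g j fun i => ((Real.log (F E ((i : ℕ) + 2)) : ℝ) : ℂ)).re := by
  refine ⟨fun s hs => F_empty hs, fun n hn => ?_, fun E s hs => ?_, primes_rich, ?_⟩
  · have h1 := F_empty (s := 2 * n) (by omega)
    push_cast at h1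
    unfold t
    push_cast
    rw [← h1, Complex.ofReal_re, F_empty hn]
  · have h1 := flip_prod E hs
    have h2 : (fun p : Nat.Primes => (1 - sg E p / ((p : ℕ) : ℝ) ^ s)⁻¹) = fun p : Nat.Primes =>
        (1 - (if (p : ℕ) ∈ E then (-1 : ℝ) else 1) / ((p : ℕ) : ℝ) ^ s)⁻¹ := by
      funext p
      rw [sg_prime E p.2]
    rw [h2] at h1
    exact h1
  obtain ⟨C, hC, hmain⟩ := linAll
  refine ⟨C, hC, fun A hAp hA M R hR 𝓕 hF hF' => ?_⟩
  have := fun t => countable_mvN (n := t) R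
  obtain ⟨a, ha⟩ : ∃ a : ℕ → ℝ, a = fun j => (riemannZeta (2 * ((j + 2 : ℕ) : ℂ))).re := ⟨_, rfl⟩
  have ha0 : ∀ j, a j ≠ 0 := by
    intro j
    rw [ha]
    exact (zeta_pos (Nat.le_add_left 2 j)).ne'
  obtain ⟨E, z, _, hEA, hEK, hl, _, hfreq, hNT⟩ := hmain (fun j => serF (j + 2) (Nat.le_add_left 2 _)) linInd_F
    A hA M (fun m => 𝓕 m ∪ Set.range (G R fun i : Fin m => a i))
    (fun m => (hF m).union (Set.countable_range _))
    (by
      rintro m g (hg | ⟨P, rfl⟩)
      · exact (hF' m g hg).1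
      · exact G_analytic R _ P)
    (by
      rintro m g (hg | ⟨P, rfl⟩)
      · exact (hF' m g hg).2
      · intro y
        rw [G_real, Complex.ofReal_im]) R hR
  have hEp : ∀ p ∈ E, p.Prime := fun p hp => hAp p (hEA p hp).1
  have hz : ∀ j, F E (j + 2) = Real.exp (z j) := by
    intro j
    have h1 := tendsto_nhds_unique (hl j) (limit_F hEp (Nat.le_add_left 2 j))
    rw [h1]
    exact flip_exp E (Nat.le_add_left 2 j)
  have hz' : ∀ j, Real.log (F E (j + 2)) = z j := by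
    intro j
    rw [hz, Real.log_exp]
  have ht : ∀ j, t E (j + 2) = a j * Real.exp (-2 * z j) := by
    intro j
    unfold t
    rw [hz, ha, div_eq_mul_inv, ← Real.exp_nat_mul, ← Real.exp_neg]
    congr 2
    push_cast
    ring
  have hP : ∀ P : MvPolynomial ℕ R, (∀ c, P ≠ MvPolynomial.C c) → ∀ b : ℕ, 2 ≤ b →
      Freq b (ev R (fun j : ℕ => t E (j + 2)) P) := by
    intro P hP b hb
    obtain ⟨m, Q, hQ⟩ := exists_fin R fun _ : Fin 1 => P
    have h1 := hfreq m (G R (fun i : Fin m => a i) (Q 0)) (Or.inr ⟨_, rfl⟩) (fun h => by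
      obtain ⟨c, hc⟩ := G_const R (fun i : Fin m => ha0 i) _ h
      apply hP c
      rw [← hQ 0, hc]
      exact MvPolynomial.rename_C _ _) b hb
    have h2 : G R (fun i : Fin m => a i) (Q 0) (rp fun i : Fin m => z i) =
        ((ev R (fun j : ℕ => t E (j + 2)) P : ℝ) : ℂ) := by
      rw [G_real]
      congr 1
      rw [← ev_eq_aeval, ← hQ 0, MvPolynomial.aeval_rename]
      congr 2
      funext i
      simp only [Function.comp]
      rw [ht]
    rw [h2, Complex.ofReal_re] at h1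
    exact h1
  refine ⟨E, fun p hp => (hEA p hp).1, fun p hp => (hEA p hp).2.1, hEK, algInd_of_freq R _ hP,
    fun n P hP' b hb => jn_of_nt b _ (nt_of_poly R _ hP P hP' b hb), ?_⟩
  intro m n g hg hnc b hb
  apply jn_of_nt
  have h1 := hNT m n g (fun j => Or.inl (hg j)) hnc b hb
  have h2 : (fun i : Fin m => ((Real.log (F E ((i : ℕ) + 2)) : ℝ) : ℂ)) = rp fun i : Fin m => z i := by
    funext i
    unfold rp
    rw [hz']
  rw [h2]
  exact h1

end Pool.Agent.Results.MP_f1a024_nt.FewChangedPrimes
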